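import Pool.Agent.helper82.LB.Spec1

/-!
# Project LB, row KLE: Klein's counting
-/

set_option autoImplicit false

open Matrix Polynomial NumberField Pool.Agent.GO Pool.Agent.RG Pool.Agent.CH

namespace Pool.Agent.LB

/-- the numerical lemma, sorted -/
theorem KLE_num (N e1 k1 e2 k2 e3 k3 : ℕ) (h1 : e1 * k1 = N) (h2 : e2 * k2 = N) (h3 : e3 * k3 = N)
    (hs : k1 + k2 + k3 = N + 2) (hk1 : 3 ≤ k1) (hk2 : 3 ≤ k2) (hk3 : 3 ≤ k3) (he1 : 2 ≤ e1) (h12 : e1 ≤ e2)
    (h23 : e2 ≤ e3) : N ≤ 60 := by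
  have a1 : k2 ≤ k1 := by
    have : e1 * k2 ≤ e1 * k1 := by rw [h1, ← h2]; exact Nat.mul_le_mul_right _ h12
    exact Nat.le_of_mul_le_mul_left this (by omega)
  have a2 : k3 ≤ k2 := by
    have : e2 * k3 ≤ e2 * k2 := by rw [h2, ← h3]; exact Nat.mul_le_mul_right _ h23
    exact Nat.le_of_mul_le_mul_left this (by omega)
  have a3 : e1 < 3 := by
    by_contra h
    have := Nat.mul_le_mul_right k1 (not_lt.1 h)
    omega
  have b1 : e1 = 2 := by omega
  subst b1
  have a4 : e2 < 4 := by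
    by_contra h
    have := Nat.mul_le_mul_right k2 (not_lt.1 h)
    omega
  have a5 : e3 < 6 := by
    by_contra h
    have := Nat.mul_le_mul_right k3 (not_lt.1 h)
    interval_cases e2 <;> omega
  interval_cases e2 <;> interval_cases e3 <;> omega

/-- the numerical lemma -/
theorem KLE_num' (N e1 k1 e2 k2 e3 k3 : ℕ) (h1 : e1 * k1 = N) (h2 : e2 * k2 = N) (h3 : e3 * k3 = N)
    (hs : k1 + k2 + k3 = N + 2) (hk1 : 3 ≤ k1) (hk2 : 3 ≤ k2) (hk3 : 3 ≤ k3) (he1 : 2 ≤ e1) (he2 : 2 ≤ e2)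
    (he3 : 2 ≤ e3) : N ≤ 60 := by
  rcases le_total e1 e2 with h12 | h12 <;> rcases le_total e2 e3 with h23 | h23 <;> rcases le_total e1 e3 with h13 | h13
  · exact KLE_num N e1 k1 e2 k2 e3 k3 h1 h2 h3 (by omega) hk1 hk2 hk3 he1 h12 h23
  · exact KLE_num N e1 k1 e2 k2 e3 k3 h1 h2 h3 (by omega) hk1 hk2 hk3 he1 h12 h23
  · exact KLE_num N e1 k1 e3 k3 e2 k2 h1 h3 h2 (by omega) hk1 hk3 hk2 he1 h13 h23
  · exact KLE_num N e3 k3 e1 k1 e2 k2 h3 h1 h2 (by omega) hk3 hk1 hk2 he3 h13 h12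
  · exact KLE_num N e2 k2 e1 k1 e3 k3 h2 h1 h3 (by omega) hk2 hk1 hk3 he2 h12 h13
  · exact KLE_num N e2 k2 e3 k3 e1 k1 h2 h3 h1 (by omega) hk2 hk3 hk1 he2 h23 h13
  · exact KLE_num N e3 k3 e2 k2 e1 k1 h3 h2 h1 (by omega) hk3 hk2 hk1 he3 h23 h12
  · exact KLE_num N e3 k3 e2 k2 e1 k1 h3 h2 h1 (by omega) hk3 hk2 hk1 he3 h23 h12

theorem KLE : KLE_stmt := by
  classical
  intro P X _ _ _ _ hfix
  have : Fintype P := Fintype.ofFinite P
  by_contra hcon
  rw [not_or, not_exists] at hcon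
  obtain ⟨hidx, hN⟩ := hcon
  obtain ⟨N, hNdef⟩ : ∃ N : ℕ, N = Nat.card P := ⟨_, rfl⟩
  rw [← hNdef] at hN
  -- orbits and stabilizers
  have horb : ∀ x : X, Nat.card (MulAction.stabilizer P x) * (MulAction.orbit P x).ncard = N := fun x => by
    rw [hNdef, ← MulAction.index_stabilizer, Subgroup.card_mul_index]
  have hk : ∀ x : X, 3 ≤ (MulAction.orbit P x).ncard := fun x => by
    have := hidx x
    rw [MulAction.index_stabilizer] at this
    omega
  -- the points with a nontrivial stabilizer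
  have hfin : ∀ g : P, g ≠ 1 → (MulAction.fixedBy X g).Finite := fun g hg =>
    Set.finite_of_ncard_ne_zero (by rw [hfix g hg]; norm_num)
  have hYfin : (⋃ g ∈ {g : P | g ≠ 1}, MulAction.fixedBy X g).Finite :=
    Set.Finite.biUnion (Set.toFinite _) fun g hg => hfin g hg
  obtain ⟨Y, hY⟩ : ∃ Y : Finset X, Y = hYfin.toFinset := ⟨_, rfl⟩
  have hmem : ∀ x, x ∈ Y ↔ ∃ g : P, g ≠ 1 ∧ g • x = x := fun x => by
    rw [hY, Set.Finite.mem_toFinset]
    simp [MulAction.mem_fixedBy]
  have hstab : ∀ x ∈ Y, 2 ≤ Nat.card (MulAction.stabilizer P x) := fun x hx => by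
    obtain ⟨g, hg1, hg2⟩ := (hmem x).1 hx
    have h1 : Nontrivial (MulAction.stabilizer P x) :=
      ⟨⟨g, hg2⟩, 1, fun h => hg1 (congrArg Subtype.val h)⟩
    exact (Finite.one_lt_card_iff_nontrivial).2 h1
  have hstable : ∀ x ∈ Y, ∀ g : P, g • x ∈ Y := fun x hx g => by
    obtain ⟨t, ht1, ht2⟩ := (hmem x).1 hx
    refine (hmem _).2 ⟨g * t * g⁻¹, fun h => ht1 ?_, ?_⟩
    · have h2 : t = g⁻¹ * (g * t * g⁻¹) * g := by group
      rw [h2, h]
      group
    · rw [mul_smul, mul_smul, inv_smul_smul, ht2]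
  -- the double counting
  have hcount : ∑ x ∈ Y, (Nat.card (MulAction.stabilizer P x) - 1) = 2 * (N - 1) := by
    have h1 : ∀ x ∈ Y, Nat.card (MulAction.stabilizer P x) - 1 =
        ((Finset.univ.filter fun g : P => g ≠ 1).filter fun g => g • x = x).card := fun x _ => by
      have h2 : (Finset.univ.filter fun g : P => g • x = x).card = Nat.card (MulAction.stabilizer P x) := by
        rw [Nat.card_eq_fintype_card, Fintype.card_subtype]
        rfl
      have h3 : ((Finset.univ.filter fun g : P => g ≠ 1).filter fun g => g • x = x) =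
          (Finset.univ.filter fun g : P => g • x = x).erase 1 := by
        ext g
        simp only [Finset.mem_filter, Finset.mem_univ, true_and, Finset.mem_erase]
      rw [h3, Finset.card_erase_of_mem (by simp), h2]
    rw [Finset.sum_congr rfl h1]
    have h4 : ∑ x ∈ Y, ((Finset.univ.filter fun g : P => g ≠ 1).filter fun g => g • x = x).card =
        ∑ g ∈ Finset.univ.filter (fun g : P => g ≠ 1), (Y.filter fun x => g • x = x).card := by
      simp only [Finset.card_eq_sum_ones, Finset.sum_filter]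
      rw [Finset.sum_comm]
      refine Finset.sum_congr rfl fun g _ => ?_
      by_cases hg : g ≠ 1
      · simp [hg]
      · simp [hg]
    rw [h4]
    have h5 : ∀ g ∈ Finset.univ.filter (fun g : P => g ≠ 1), (Y.filter fun x => g • x = x).card = 2 := fun g hg => by
      have hg1 : g ≠ 1 := by simpa using hg
      rw [← hfix g hg1, ← Set.ncard_coe_finset]
      congr 1
      ext x
      simp only [Finset.coe_filter, Set.mem_ofPred_eq, MulAction.mem_fixedBy]
      exact ⟨fun h => h.2, fun h => ⟨(hmem x).2 ⟨g, hg1, h⟩, h⟩⟩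
    rw [Finset.sum_congr rfl h5, Finset.sum_const, smul_eq_mul, Finset.filter_ne', Finset.card_erase_of_mem (Finset.mem_univ _),
      Finset.card_univ, hNdef, Nat.card_eq_fintype_card, mul_comm]
  -- the orbits
  obtain ⟨O, hO⟩ : ∃ O : Finset (Set X), O = Y.image (fun x => MulAction.orbit P x) := ⟨_, rfl⟩
  have hOk : ∀ o ∈ O, 3 ≤ o.ncard ∧ ∃ e : ℕ, 2 ≤ e ∧ e * o.ncard = N := fun o ho => by
    rw [hO, Finset.mem_image] at ho
    obtain ⟨x, hx, rfl⟩ := ho
    exact ⟨hk x, _, hstab x hx, horb x⟩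
  have hsum : ∑ o ∈ O, (N - o.ncard) = 2 * (N - 1) := by
    rw [← hcount]
    have h1 : ∀ x ∈ Y, MulAction.orbit P x ∈ O := fun x hx => by
      rw [hO]
      exact Finset.mem_image_of_mem _ hx
    rw [← Finset.sum_fiberwise_of_maps_to h1]
    refine Finset.sum_congr rfl fun o ho => ?_
    rw [hO, Finset.mem_image] at ho
    obtain ⟨x, hx, rfl⟩ := ho
    have h2 : ∀ y ∈ Y.filter (fun y => MulAction.orbit P y = MulAction.orbit P x),
        Nat.card (MulAction.stabilizer P y) - 1 = Nat.card (MulAction.stabilizer P x) - 1 := fun y hy => by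
      have hy2 := (Finset.mem_filter.1 hy).2
      have h3 := horb y
      rw [hy2, ← horb x] at h3
      rw [Nat.eq_of_mul_eq_mul_right (by have := hk x; omega) h3]
    rw [Finset.sum_congr rfl h2, Finset.sum_const, smul_eq_mul]
    have h4 : (Y.filter (fun y => MulAction.orbit P y = MulAction.orbit P x)).card = (MulAction.orbit P x).ncard := by
      rw [← Set.ncard_coe_finset]
      congr 1
      ext y
      simp only [Finset.coe_filter, Set.mem_ofPred_eq]
      rw [MulAction.orbit_eq_iff]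
      refine ⟨fun h => h.2, fun h => ⟨?_, h⟩⟩
      obtain ⟨g, rfl⟩ := h
      exact hstable x hx g
    rw [h4, Nat.mul_sub, mul_one, mul_comm, horb x]
  -- there are exactly three orbits
  have hcard : O.card = 3 := by
    have h1 : ∀ o ∈ O, N - o.ncard ≤ N - 3 := fun o ho => by
      have := (hOk o ho).1
      omega
    have h2 : ∀ o ∈ O, N ≤ 2 * (N - o.ncard) := fun o ho => by
      obtain ⟨-, e, he, hek⟩ := hOk o ho
      have := Nat.mul_le_mul_right o.ncard he
      omega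
    have h3 := Finset.sum_le_card_nsmul O (fun o => N - o.ncard) (N - 3) h1
    have h4 := Finset.card_nsmul_le_sum O (fun o => 2 * (N - o.ncard)) N h2
    rw [← Finset.mul_sum, hsum, smul_eq_mul] at h4
    rw [hsum, smul_eq_mul] at h3
    have h5 : O.card < 4 := by
      by_contra h
      have := Nat.mul_le_mul_right N (not_lt.1 h)
      omega
    have h6 : 2 < O.card := by
      by_contra h
      have := Nat.mul_le_mul_right (N - 3) (not_lt.1 h)
      omega
    omega
  obtain ⟨o₁, o₂, o₃, h12, h13, h23, hO3⟩ := Finset.card_eq_three.1 hcard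
  have m1 : o₁ ∈ O := by rw [hO3]; simp
  have m2 : o₂ ∈ O := by rw [hO3]; simp
  have m3 : o₃ ∈ O := by rw [hO3]; simp
  obtain ⟨k1, e1, he1, hek1⟩ := hOk o₁ m1
  obtain ⟨k2, e2, he2, hek2⟩ := hOk o₂ m2
  obtain ⟨k3, e3, he3, hek3⟩ := hOk o₃ m3
  rw [hO3, Finset.sum_insert (by simp [h12, h13]), Finset.sum_insert (by simp [h23]), Finset.sum_singleton] at hsum
  have g1 : o₁.ncard ≤ N := by
    have := Nat.mul_le_mul_right o₁.ncard he1
    omega
  have g2 : o₂.ncard ≤ N := by
    have := Nat.mul_le_mul_right o₂.ncard he2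
    omega
  have g3 : o₃.ncard ≤ N := by
    have := Nat.mul_le_mul_right o₃.ncard he3
    omega
  exact hN (KLE_num' N e1 o₁.ncard e2 o₂.ncard e3 o₃.ncard hek1 hek2 hek3 (by omega) k1 k2 k3 he1 he2 he3)

end Pool.Agent.LB
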